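import Pool.Agent.Helper52.NF.St

set_option autoImplicit false

namespace Pool.Agent.Helper73.NF

open Pool.Agent.Helper52.NF Finset

theorem hIB (h : StPB) : StIB := by
  classical
  intro ε N _ _ _ α β E J NA NB O x e₀ hI he₀ hat huniq hxB hb hstep
  obtain ⟨hdis, hOB, hE, hC, hO⟩ := hI
  have hne : ∀ v ∈ NA, v ≠ x := fun v hv hvx => Finset.disjoint_left.1 hdis hv (hvx ▸ hxB)
  have he₀E : e₀ ∈ E := hC.1 he₀
  have hα : α e₀ ≠ x := hne _ (hE e₀ he₀E).1
  have hβ : β e₀ = x := hat.resolve_left hα
  have hJ : J = insert e₀ (J.erase e₀) := (Finset.insert_erase he₀).symm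
  have hbJ : ∀ v, bd α β J v = pt (α e₀) v + pt (β e₀) v + bd α β (J.erase e₀) v := by
    intro v
    conv_lhs => rw [hJ]
    exact bd_insert α β (Finset.notMem_erase _ _) v
  have hx1 : bd α β J x = 1 := by
    rw [hbJ x, pt_ne (Ne.symm hα), hβ, pt_self, bd_of_notAt, add_zero, zero_add]
    intro e he hate
    exact (Finset.mem_erase.1 he).1 (huniq e (Finset.mem_of_mem_erase he) hate)
  have hxO : x ∉ O := fun hx => by
    have := hO x hx
    rw [hx1] at this
    exact one_ne_zero this
  have hxBO : x ∈ NB \ O := Finset.mem_sdiff.2 ⟨hxB, hxO⟩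
  have hcJ : (J.erase e₀).card + 1 = J.card := Finset.card_erase_add_one he₀
  have hcB : ((NB \ O).erase x).card + 1 = (NB \ O).card := Finset.card_erase_add_one hxBO
  rcases hstep with h0 | ⟨q, S', hP, hcard⟩
  · refine ⟨0, fun i => i.elim0, ⟨fun i => i.elim0, fun i => i.elim0, fun i => i.elim0,
      fun i => i.elim0⟩, ?_⟩
    have h1 : α e₀ ∈ NA.filter (fun v => bd α β J v = 1) := by
      refine Finset.mem_filter.2 ⟨(hE e₀ he₀E).1, ?_⟩
      rw [hbJ, h0, bd_empty, pt_self, hβ, pt_ne hα]
      simp
    have h2 : 1 ≤ (NA.filter (fun v => bd α β J v = 1)).card := Finset.card_pos.2 ⟨_, h1⟩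
    rw [h0, Finset.card_empty] at hcJ
    omega
  · refine ⟨q, _, h ε N α β E J x e₀ O q S' hb hxO hP, ?_⟩
    have h1 : (NB.erase x) \ O = (NB \ O).erase x := by
      ext v
      simp only [Finset.mem_sdiff, Finset.mem_erase]
      tauto
    have h2 : ∀ v ∈ NA, ¬ Nb α β E x v →
        bd (fun e => rho α β E x (α e)) (fun e => rho α β E x (β e)) (J.erase e₀) v =
          bd α β J v := by
      intro v hv hnb
      rw [hb v]
      have h3 : (Finset.univ.filter (fun u => rho α β E x u = v)) = {v} := by
        ext u
        rw [Finset.mem_filter, Finset.mem_singleton]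
        constructor
        · rintro ⟨-, hu⟩
          unfold rho at hu
          split_ifs at hu with hc
          · exact absurd hu.symm (hne v hv)
          · exact hu
        · rintro rfl
          refine ⟨Finset.mem_univ _, ?_⟩
          unfold rho
          rw [if_neg]
          rintro (h4 | h4)
          · exact hne _ hv h4
          · exact hnb h4
      rw [h3, Finset.sum_singleton]
    have h4 : ((insert x (NA.filter (fun v => ¬ Nb α β E x v))).filter (fun v =>
        bd (fun e => rho α β E x (α e)) (fun e => rho α β E x (β e)) (J.erase e₀) v = 1)) ⊆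
        insert x (NA.filter (fun v => bd α β J v = 1)) := by
      intro v hv
      rw [Finset.mem_filter, Finset.mem_insert, Finset.mem_filter] at hv
      rw [Finset.mem_insert, Finset.mem_filter]
      obtain ⟨rfl | ⟨hvA, hnb⟩, hv1⟩ := hv
      · exact Or.inl rfl
      · right
        rw [h2 v hvA hnb] at hv1
        exact ⟨hvA, hv1⟩
    have h5 := (Finset.card_le_card h4).trans (Finset.card_insert_le _ _)
    rw [h1] at hcard
    have h6 : ((insert x (NA.filter (fun v => ¬ Nb α β E x v))).filter (fun v =>
        bd (fun e => rho α β E x (α e)) (fun e => rho α β E x (β e)) (J.erase e₀) v = 1)).card ≤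
        (NA.filter (fun v => bd α β J v = 1)).card + 1 := h5
    have h7 : (J.erase e₀).card + 2 ≤ 2 * q + ((insert x (NA.filter
        (fun v => ¬ Nb α β E x v))).filter (fun v =>
        bd (fun e => rho α β E x (α e)) (fun e => rho α β E x (β e)) (J.erase e₀) v = 1)).card +
        2 * ((NB \ O).erase x).card := by
      refine hcard.trans (le_of_eq ?_)
      congr!
    omega

end Pool.Agent.Helper73.NF
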